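import Mathlib
import Pool.Agent.Lib.MP_711a76_lc.Codes

set_option autoImplicit false

namespace Pool.Agent.Results.MP_711a76_lc.SteaneSwitch

open Pool.Agent.Lib.MP_711a76_lc

/-- Two qubit stabilizer codes of length 7 and distance 3 with a weight-preserving isometry between
them, while no monomial transformation maps the first into the second. -/
theorem result :
    ∃ C D : Submodule (ZMod 2) (Word 2 7),
      IsStabilizerCode C ∧ IsStabilizerCode D ∧ distance C = 3 ∧ distance D = 3 ∧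
      (∃ f : Word 2 7 →ₗ[ZMod 2] Word 2 7, IsWeightIsometry C D f) ∧
      ∀ (π : Equiv.Perm (Fin 7)) (g : Fin 7 → GL (Fin 2) (ZMod 2)),
        ¬ ∀ c ∈ C, monomial π g c ∈ D := by
  refine ⟨LinearMap.range encC, LinearMap.range encD, ?_, ?_,
    distance_eq encC wt_ge w3C lowC,
    distance_eq encD (fun x => by rw [wt_eq]; exact wt_ge x) w3D lowD,
    ?_, not_equiv⟩
  · rintro _ ⟨x, rfl⟩ _ ⟨y, rfl⟩; exact orthC x y
  · rintro _ ⟨x, rfl⟩ _ ⟨y, rfl⟩; exact orthD x y
  · obtain ⟨r, hr⟩ := encC.exists_leftInverse_of_injective (LinearMap.ker_eq_bot.2 injC)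
    have hr' : ∀ x, r (encC x) = x := fun x => LinearMap.congr_fun hr x
    refine ⟨encD.comp r, ⟨?_, ?_, ?_⟩, ?_⟩
    · rintro _ ⟨x, rfl⟩; exact ⟨_, rfl⟩
    · rintro _ ⟨x, rfl⟩ _ ⟨y, rfl⟩ h
      simp only [LinearMap.comp_apply, hr'] at h
      rw [injD h]
    · rintro _ ⟨x, rfl⟩
      exact ⟨encC x, ⟨x, rfl⟩, by simp [hr']⟩
    · rintro _ ⟨x, rfl⟩
      simp only [LinearMap.comp_apply, hr']
      exact wt_eq x

end Pool.Agent.Results.MP_711a76_lc.SteaneSwitch
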