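import Pool.Agent.Lib.MP_711a76_lc.XSeed

set_option autoImplicit false

namespace Pool.Agent.Results.MP_711a76_lc.Threshold

open Pool.Agent.Lib.MP_711a76_lc

/-- For a prime `q` and a bound `d`, all weight-preserving isometries between stabilizer codes of
distance at least `d` extend to monomial transformations exactly when `q ≥ 5` and `d ≥ 4`. -/
theorem result (q : ℕ) (hq : q.Prime) (d : ℕ) :
    (∀ (n : ℕ) (C D : Submodule (ZMod q) (Word q n)) (f : Word q n →ₗ[ZMod q] Word q n),
      IsStabilizerCode C → IsStabilizerCode D → d ≤ distance C → d ≤ distance D →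
      IsWeightIsometry C D f →
      ∃ (π : Equiv.Perm (Fin n)) (g : Fin n → GL (Fin 2) (ZMod q)),
        ∀ c ∈ C, monomial π g c = f c) ↔ 5 ≤ q ∧ 4 ≤ d := by
  have : Fact q.Prime := ⟨hq⟩
  refine ⟨fun h => ?_, fun h n C D f _ _ hC hD hf =>
    extends_of h.1 (h.2.trans hC) (h.2.trans hD) hf⟩
  have key : ∀ {e : ℕ}, d ≤ e → ¬∃ (n : ℕ) (C : Submodule (ZMod q) (Word q n))
      (f : Word q n →ₗ[ZMod q] Word q n), IsStabilizerCode C ∧ e ≤ distance C ∧
      IsWeightIsometry C C f ∧ ¬∃ (π : Equiv.Perm (Fin n)) (g : Fin n → GL (Fin 2) (ZMod q)),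
        ∀ c ∈ C, monomial π g c = f c :=
    fun he ⟨n, C, f, h1, h2, h3, h4⟩ => h4 (h n C C f h1 h1 (he.trans h2) (he.trans h2) h3)
  have h5 : 5 ≤ q := by
    by_contra h5
    have h2 := hq.two_le
    obtain rfl | rfl | rfl : q = 2 ∨ q = 3 ∨ q = 4 := by omega
    · exact key d.le_succ (seed2 _).counter'
    · exact key d.le_succ (seed3 _).counter'
    · exact absurd hq (by decide)
  refine ⟨h5, by_contra fun h4 => ?_⟩
  obtain ⟨c, hc⟩ := seed5 h5
  exact key (by omega) hc.counter'

end Pool.Agent.Results.MP_711a76_lc.Threshold
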